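import Pool.Agent.Y748.SR.Stm

/-!
# Project SR: pairwise independence implies independence for Rayleigh functions

`t_IND : S_IND`.
-/

set_option autoImplicit false

open Finset

namespace Pool.Agent.Y86.SR
open Pool.Agent.Y748.SR

/-- The Rayleigh inequality when all proper subsets are independent. -/
lemma ind_step {X : Type} [DecidableEq X] (f : Finset X → ℝ) (Y : Finset X) (i j : X)
    (hi : i ∈ Y) (hj : j ∈ Y) (hij : i ≠ j) (hR : RayOn Y f)
    (hf : ∀ B : Finset X, B ⊂ Y → f B = ∏ x ∈ B, f {x}) (w : X → ℝ) :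
    (∏ x ∈ Y \ {i, j}, (1 + f {x} * w x)) *
      ((f Y - ∏ x ∈ Y, f {x}) * ∏ x ∈ Y \ {i, j}, w x) ≤ 0 := by
  have hY : insert i (insert j (Y \ {i, j})) = Y := by
    ext x
    simp only [mem_insert, mem_sdiff, mem_singleton]
    constructor
    · rintro (h | h | h)
      · rw [h]; exact hi
      · rw [h]; exact hj
      · exact h.1
    · intro h
      by_cases h1 : x = i
      · exact Or.inl h1
      · by_cases h2 : x = j
        · exact Or.inr (Or.inl h2)
        · exact Or.inr (Or.inr ⟨h, by tauto⟩)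
  have hi' : i ∉ Y \ {i, j} := by simp
  have hj' : j ∉ Y \ {i, j} := by simp
  have hsub : Y \ {i, j} ⊆ Y := sdiff_subset
  set Z := Y \ {i, j} with hZ
  have h := hR ∅ Z i j w hij (by simp) (by simp) hi' hj' (by simp) (by
    rw [empty_union, hY])
  unfold RayI PW at h
  have e0 : ∑ B ∈ Z.powerset, (∏ x ∈ B, f {x} * w x) = ∏ x ∈ Z, (1 + f {x} * w x) :=
    (Finset.prod_one_add Z).symm
  have e1 : ∑ B ∈ Z.powerset, f (∅ ∪ B) * ∏ x ∈ B, w x = ∏ x ∈ Z, (1 + f {x} * w x) := by
    rw [← e0]
    refine Finset.sum_congr rfl fun B hB => ?_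
    rw [mem_powerset] at hB
    rw [empty_union, hf B ?_, Finset.prod_mul_distrib]
    refine ⟨hB.trans hsub, fun h1 => hi' (hB (h1 hi))⟩
  have e2 : ∀ l ∈ ({i, j} : Finset X), ∑ B ∈ Z.powerset, f (insert l ∅ ∪ B) * ∏ x ∈ B, w x =
      f {l} * ∏ x ∈ Z, (1 + f {x} * w x) := by
    intro l hl
    rw [← e0, Finset.mul_sum]
    refine Finset.sum_congr rfl fun B hB => ?_
    rw [mem_powerset] at hB
    have hlB : l ∉ B := by
      intro h1
      rcases mem_insert.1 hl with h2 | h2
      · rw [h2] at h1; exact hi' (hB h1)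
      · rw [mem_singleton.1 h2] at h1; exact hj' (hB h1)
    have hins : insert l ∅ ∪ B = insert l B := by
      rw [insert_union, empty_union]
    have hlY : l ∈ Y := by
      rcases mem_insert.1 hl with h2 | h2
      · rw [h2]; exact hi
      · rw [mem_singleton.1 h2]; exact hj
    rw [hins, hf (insert l B) ?_, Finset.prod_insert hlB, Finset.prod_mul_distrib, mul_assoc]
    refine ⟨insert_subset hlY (hB.trans hsub), fun h1 => ?_⟩
    rcases mem_insert.1 hl with h2 | h2
    · have h3 := h1 hj
      rw [mem_insert] at h3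
      rcases h3 with h3 | h3
      · exact hij (by rw [h3, h2])
      · exact hj' (hB h3)
    · have h3 := h1 hi
      rw [mem_insert] at h3
      rcases h3 with h3 | h3
      · exact hij (by rw [h3, mem_singleton.1 h2])
      · exact hi' (hB h3)
  have e3 : ∑ B ∈ Z.powerset, f (insert i (insert j ∅) ∪ B) * ∏ x ∈ B, w x =
      f {i} * f {j} * ∏ x ∈ Z, (1 + f {x} * w x) +
        (f Y - ∏ x ∈ Y, f {x}) * ∏ x ∈ Z, w x := by
    rw [← e0, Finset.mul_sum]
    have hZm : Z ∈ Z.powerset := mem_powerset_self Z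
    rw [← Finset.add_sum_erase _ _ hZm, ← Finset.add_sum_erase _ _ hZm]
    have e4 : ∑ B ∈ Z.powerset.erase Z, f (insert i (insert j ∅) ∪ B) * ∏ x ∈ B, w x =
        ∑ B ∈ Z.powerset.erase Z, f {i} * f {j} * ∏ x ∈ B, f {x} * w x := by
      refine Finset.sum_congr rfl fun B hB => ?_
      rw [mem_erase, mem_powerset] at hB
      have hiB : i ∉ insert j B := by
        rw [mem_insert]
        rintro (h1 | h1)
        · exact hij h1
        · exact hi' (hB.2 h1)
      have hjB : j ∉ B := fun h1 => hj' (hB.2 h1)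
      have hins : insert i (insert j ∅) ∪ B = insert i (insert j B) := by
        rw [insert_union, insert_union, empty_union]
      rw [hins, hf (insert i (insert j B)) ?_, Finset.prod_insert hiB, Finset.prod_insert hjB,
        Finset.prod_mul_distrib]
      · ring
      · refine ⟨insert_subset hi (insert_subset hj (hB.2.trans hsub)), fun h1 => hB.1 ?_⟩
        apply Finset.Subset.antisymm hB.2
        intro x hx
        have h2 := h1 (hsub hx)
        rw [mem_insert, mem_insert] at h2
        rcases h2 with h2 | h2 | h2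
        · exact absurd (by rw [← h2]; exact hx) hi'
        · exact absurd (by rw [← h2]; exact hx) hj'
        · exact h2
    rw [e4]
    have hins : insert i (insert j ∅) ∪ Z = Y := by
      rw [insert_union, insert_union, empty_union, hY]
    have e5 : ∏ x ∈ Y, f {x} = f {i} * (f {j} * ∏ x ∈ Z, f {x}) := by
      conv_lhs => rw [← hY]
      rw [Finset.prod_insert ?_, Finset.prod_insert hj']
      rw [mem_insert]
      rintro (h1 | h1)
      · exact hij h1
      · exact hi' h1
    rw [hins, e5, Finset.prod_mul_distrib]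
    ring
  rw [e1, e2 i (by simp), e2 j (by simp), e3] at h
  nlinarith [h]

theorem t_IND : S_IND := by
  intro X _ f
  have main : ∀ n : ℕ, ∀ Y : Finset X, Y.card = n → RayOn Y f → f ∅ = 1 →
      (∀ i ∈ Y, ∀ j ∈ Y, i ≠ j → f {i, j} = f {i} * f {j}) → f Y = ∏ i ∈ Y, f {i} := by
    intro n
    induction n using Nat.strong_induction_on with
    | _ n ih =>
      intro Y hY hR h0 h2
      have hf : ∀ B : Finset X, B ⊂ Y → f B = ∏ x ∈ B, f {x} := by
        intro B hB
        refine ih B.card (by rw [← hY]; exact card_lt_card hB) B rfl ?_ h0 ?_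
        · intro C Y' i j w h1 h3 h4 h5 h6 h7 h8
          exact hR C Y' i j w h1 h3 h4 h5 h6 h7 (h8.trans hB.1)
        · intro i hi j hj hij
          exact h2 i (hB.1 hi) j (hB.1 hj) hij
      by_cases h3 : 2 < Y.card
      · obtain ⟨i, hi, j, hj, k, hk, hij, hik, hjk⟩ := Finset.two_lt_card.1 h3
        have hk' : k ∈ Y \ {i, j} := by
          rw [mem_sdiff, mem_insert, mem_singleton]
          exact ⟨hk, by rintro (h | h); exacts [hik h.symm, hjk h.symm]⟩
        have hpos : ∀ (x : X) (s : ℝ), |s| = 1 → 0 < 1 + f {x} * (s / (1 + |f {x}|)) := by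
          intro x s hs
          have h4 : 0 < 1 + |f {x}| := by positivity
          have h5 : |f {x} * (s / (1 + |f {x}|))| < 1 := by
            rw [abs_mul, abs_div, hs, abs_of_pos h4, mul_one_div, div_lt_one h4]
            linarith
          linarith [(abs_lt.1 h5).1]
        -- all weights positive
        have hle := ind_step f Y i j hi hj hij hR hf (fun x => 1 / (1 + |f {x}|))
        have hge := ind_step f Y i j hi hj hij hR hf
          (fun x => (if x = k then -1 else 1) / (1 + |f {x}|))
        have hP1 : 0 < ∏ x ∈ Y \ {i, j}, (1 + f {x} * (1 / (1 + |f {x}|))) :=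
          Finset.prod_pos fun x _ => hpos x 1 (by simp)
        have hP2 : 0 < ∏ x ∈ Y \ {i, j},
            (1 + f {x} * ((if x = k then -1 else 1) / (1 + |f {x}|))) :=
          Finset.prod_pos fun x _ => hpos x _ (by split_ifs <;> simp)
        have hW1 : 0 < ∏ x ∈ Y \ {i, j}, (1 / (1 + |f {x}|)) :=
          Finset.prod_pos fun x _ => by positivity
        have hW2 : ∏ x ∈ Y \ {i, j}, ((if x = k then (-1 : ℝ) else 1) / (1 + |f {x}|)) =
            -∏ x ∈ Y \ {i, j}, (1 / (1 + |f {x}|)) := by
          rw [← Finset.mul_prod_erase _ _ hk', ← Finset.mul_prod_erase _ _ hk', if_pos rfl]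
          have e1 : ∏ x ∈ (Y \ {i, j}).erase k, ((if x = k then (-1 : ℝ) else 1) / (1 + |f {x}|)) =
              ∏ x ∈ (Y \ {i, j}).erase k, (1 / (1 + |f {x}|)) := by
            refine Finset.prod_congr rfl fun x hx => ?_
            rw [if_neg (ne_of_mem_erase hx)]
          rw [e1]
          ring
        rw [hW2] at hge
        have h6 : (f Y - ∏ x ∈ Y, f {x}) * ∏ x ∈ Y \ {i, j}, (1 / (1 + |f {x}|)) ≤ 0 :=
          nonpos_of_mul_nonpos_right hle hP1
        have h7 : (f Y - ∏ x ∈ Y, f {x}) * -∏ x ∈ Y \ {i, j}, (1 / (1 + |f {x}|)) ≤ 0 :=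
          nonpos_of_mul_nonpos_right hge hP2
        have h8 : f Y - ∏ x ∈ Y, f {x} ≤ 0 := nonpos_of_mul_nonpos_left h6 hW1
        have h9 : 0 ≤ f Y - ∏ x ∈ Y, f {x} := by
          have : 0 ≤ (f Y - ∏ x ∈ Y, f {x}) * ∏ x ∈ Y \ {i, j}, (1 / (1 + |f {x}|)) := by
            linarith
          exact nonneg_of_mul_nonneg_left this hW1
        linarith
      · have h4 : Y.card = 0 ∨ Y.card = 1 ∨ Y.card = 2 := by omega
        rcases h4 with h4 | h4 | h4
        · rw [card_eq_zero] at h4
          rw [h4, h0, prod_empty]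
        · obtain ⟨i, hi⟩ := card_eq_one.1 h4
          rw [hi, prod_singleton]
        · obtain ⟨i, j, hij, hi⟩ := card_eq_two.1 h4
          rw [hi, prod_pair hij]
          exact h2 i (by rw [hi]; simp) j (by rw [hi]; simp) hij
  exact fun Y hR h0 h2 => main Y.card Y rfl hR h0 h2

end Pool.Agent.Y86.SR
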